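import Pool.Agent.Run7.h991.MU.Iface

/-!
Piece C0D of the project MU (helper991): the monomials with positive exponents are dense in the
continuous functions on the square which vanish on the axes.
-/

namespace H991.MU.C0Dpf

open H991.MU

/-- all monomials -/
def MS : Set C(Q, ℂ) := {g | ∃ m n : ℕ, g = mon m n}

theorem mon_apply (m n : ℕ) (q : Q) :
    mon m n q = ((q.1 : ℝ) : ℂ) ^ m * ((q.2 : ℝ) : ℂ) ^ n := rfl

theorem mon_mul (m n m' n' : ℕ) : mon m n * mon m' n' = mon (m + m') (n + n') := by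
  ext q
  rw [ContinuousMap.mul_apply, mon_apply, mon_apply, mon_apply, pow_add, pow_add]
  ring

theorem mon_zero : mon 0 0 = 1 := by
  ext q
  rw [mon_apply, ContinuousMap.one_apply, pow_zero, pow_zero, one_mul]

theorem mon_star (m n : ℕ) : star (mon m n) = mon m n := by
  ext q
  rw [ContinuousMap.star_apply, mon_apply]
  simp

/-- the star algebra of polynomials -/
noncomputable def PA : StarSubalgebra ℂ C(Q, ℂ) where
  carrier := (Submodule.span ℂ MS : Set C(Q, ℂ))
  mul_mem' := by
    intro a b ha hb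
    have h1 : a * b ∈ Submodule.span ℂ MS * Submodule.span ℂ MS := Submodule.mul_mem_mul ha hb
    rw [Submodule.span_mul_span] at h1
    refine Submodule.span_mono ?_ h1
    rintro _ ⟨_, ⟨m, n, rfl⟩, _, ⟨m', n', rfl⟩, rfl⟩
    exact ⟨m + m', n + n', mon_mul m n m' n'⟩
  add_mem' := by
    intro a b ha hb
    exact (Submodule.span ℂ MS).add_mem ha hb
  algebraMap_mem' := by
    intro r
    change (algebraMap ℂ C(Q, ℂ)) r ∈ Submodule.span ℂ MS
    rw [Algebra.algebraMap_eq_smul_one, ← mon_zero]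
    exact Submodule.smul_mem _ _ (Submodule.subset_span ⟨0, 0, rfl⟩)
  star_mem' := by
    intro a ha
    change star a ∈ Submodule.span ℂ MS
    change a ∈ Submodule.span ℂ MS at ha
    induction ha using Submodule.span_induction with
    | mem x hx =>
      obtain ⟨m, n, rfl⟩ := hx
      rw [mon_star]
      exact Submodule.subset_span ⟨m, n, rfl⟩
    | zero =>
      rw [star_zero]
      exact Submodule.zero_mem _
    | add x y _ _ hx hy =>
      rw [star_add]
      exact Submodule.add_mem _ hx hy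
    | smul c x _ hx =>
      rw [star_smul]
      exact Submodule.smul_mem _ _ hx

theorem PA_sep : PA.SeparatesPoints := by
  intro q q' hq
  by_cases h1 : q.1 = q'.1
  · have h2 : q.2 ≠ q'.2 := fun h2 => hq (Prod.ext h1 h2)
    refine ⟨_, ⟨mon 0 1, Submodule.subset_span ⟨0, 1, rfl⟩, rfl⟩, ?_⟩
    dsimp only
    rw [mon_apply, mon_apply]
    simp only [pow_zero, pow_one, one_mul]
    intro h3
    exact h2 (Subtype.ext (Complex.ofReal_injective h3))
  · refine ⟨_, ⟨mon 1 0, Submodule.subset_span ⟨1, 0, rfl⟩, rfl⟩, ?_⟩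
    dsimp only
    rw [mon_apply, mon_apply]
    simp only [pow_zero, pow_one, mul_one]
    intro h3
    exact h1 (Subtype.ext (Complex.ofReal_injective h3))

theorem dense_all (f : C(Q, ℂ)) : f ∈ closure (Submodule.span ℂ MS : Set C(Q, ℂ)) := by
  have h1 := ContinuousMap.starSubalgebra_topologicalClosure_eq_top_of_separatesPoints PA PA_sep
  have h2 : f ∈ PA.topologicalClosure := by
    rw [h1]
    trivial
  exact h2

/-- `(x, y) ↦ (0, y)` -/
def pa : C(Q, Q) := ⟨fun q => (0, q.2), by fun_prop⟩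

/-- `(x, y) ↦ (x, 0)` -/
def pb : C(Q, Q) := ⟨fun q => (q.1, 0), by fun_prop⟩

/-- `(x, y) ↦ (0, 0)` -/
def pc : C(Q, Q) := ⟨fun _ => (0, 0), by fun_prop⟩

/-- the projection to the functions which vanish on the axes -/
noncomputable def T (f : C(Q, ℂ)) : C(Q, ℂ) := f - f.comp pa - f.comp pb + f.comp pc

theorem T_apply (f : C(Q, ℂ)) (q : Q) :
    T f q = f q - f (0, q.2) - f (q.1, 0) + f (0, 0) := rfl

theorem T_cont : Continuous T := by
  unfold T
  exact ((continuous_id.sub (ContinuousMap.continuous_precomp pa)).sub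
    (ContinuousMap.continuous_precomp pb)).add (ContinuousMap.continuous_precomp pc)

theorem T_add (f g : C(Q, ℂ)) : T (f + g) = T f + T g := by
  ext q
  rw [ContinuousMap.add_apply, T_apply, T_apply, T_apply]
  simp only [ContinuousMap.add_apply]
  ring

theorem T_smul (c : ℂ) (f : C(Q, ℂ)) : T (c • f) = c • T f := by
  ext q
  rw [ContinuousMap.smul_apply, T_apply, T_apply]
  simp only [ContinuousMap.smul_apply, smul_eq_mul]
  ring

theorem T_zero : T 0 = 0 := by
  ext q
  rw [T_apply]
  simp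

theorem T_mon (m n : ℕ) : T (mon m n) =
    if 1 ≤ m ∧ 1 ≤ n then mon m n else 0 := by
  ext q
  rw [T_apply]
  simp only [mon_apply]
  split_ifs with h
  · obtain ⟨h1, h2⟩ := h
    rw [mon_apply]
    have h3 : (((0 : ↥unitInterval) : ℝ) : ℂ) = 0 := by simp
    rw [h3, zero_pow (by omega), zero_pow (by omega)]
    ring
  · rw [ContinuousMap.zero_apply]
    have h3 : (((0 : ↥unitInterval) : ℝ) : ℂ) = 0 := by simp
    rw [h3]
    rcases Nat.eq_zero_or_pos m with h1 | h1
    · subst h1
      rw [pow_zero, pow_zero]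
      ring
    · have h2 : n = 0 := by omega
      subst h2
      rw [pow_zero, pow_zero]
      ring

theorem T_maps : Set.MapsTo T (Submodule.span ℂ MS : Set C(Q, ℂ))
    (Submodule.span ℂ {g : C(Q, ℂ) | ∃ m n : ℕ, 1 ≤ m ∧ 1 ≤ n ∧ g = mon m n} :
      Set C(Q, ℂ)) := by
  intro a ha
  change a ∈ Submodule.span ℂ MS at ha
  change T a ∈ Submodule.span ℂ {g : C(Q, ℂ) | ∃ m n : ℕ, 1 ≤ m ∧ 1 ≤ n ∧ g = mon m n}
  induction ha using Submodule.span_induction with
  | mem x hx =>
    obtain ⟨m, n, rfl⟩ := hx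
    rw [T_mon]
    split_ifs with h
    · exact Submodule.subset_span ⟨m, n, h.1, h.2, rfl⟩
    · exact Submodule.zero_mem _
  | zero =>
    rw [T_zero]
    exact Submodule.zero_mem _
  | add x y _ _ hx hy =>
    rw [T_add]
    exact Submodule.add_mem _ hx hy
  | smul c x _ hx =>
    rw [T_smul]
    exact Submodule.smul_mem _ _ hx

theorem T_C0 (f : C(Q, ℂ)) (hf : f ∈ C0) : T f = f := by
  ext q
  rw [T_apply, hf (0, q.2) (Or.inl rfl), hf (q.1, 0) (Or.inr rfl), hf (0, 0) (Or.inl rfl)]
  ring

end H991.MU.C0Dpf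

namespace H991.MU

open C0Dpf in
theorem t_C0D : S_C0D := by
  intro f hf
  have h1 := map_mem_closure T_cont (dense_all f) T_maps
  rw [T_C0 f hf] at h1
  exact h1

end H991.MU
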